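import Mathlib

/-!
Negative binomial expansions with nilpotent increments.
-/

set_option autoImplicit false

open Finset

namespace Pool.CUBE.JF

section
variable {C : Type} [CommRing C]

/-- `(α + ε) ^ (-t)`, truncated at `K` -/
def nb (α' ε : C) (K t : ℕ) : C :=
  ∑ i ∈ range K, (-1) ^ i * ((t + i - 1).choose i : C) * ε ^ i * α' ^ (t + i)

theorem nb_zero (α' ε : C) (K : ℕ) (hK : 1 ≤ K) : nb α' ε K 0 = 1 := by
  obtain ⟨K, rfl⟩ : ∃ k, K = k + 1 := ⟨K - 1, by omega⟩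
  unfold nb
  rw [Finset.sum_range_succ']
  have h : ∀ i ∈ range K, (-1) ^ (i + 1) * ((0 + (i + 1) - 1).choose (i + 1) : C) *
      ε ^ (i + 1) * α' ^ (0 + (i + 1)) = 0 := by
    intro i _
    have : (0 + (i + 1) - 1).choose (i + 1) = 0 := Nat.choose_eq_zero_of_lt (by omega)
    rw [this]
    simp
  rw [Finset.sum_eq_zero h]
  simp

theorem nb_succ (α α' ε : C) (K t : ℕ) (ha : α * α' = 1) (hK : ε ^ K = 0) :
    (α + ε) * nb α' ε K (t + 1) = nb α' ε K t := by
  rcases Nat.eq_zero_or_pos K with rfl | hK0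
  · simp [nb]
  unfold nb
  rw [Finset.mul_sum]
  let f : ℕ → C := fun i => (-1) ^ i * ((t + i - 1).choose (i - 1) : C) * (if i = 0 then 0 else 1) *
    ε ^ i * α' ^ (t + i)
  have key : ∀ i, (α + ε) * ((-1) ^ i * ((t + 1 + i - 1).choose i : C) * ε ^ i *
      α' ^ (t + 1 + i)) = (-1) ^ i * ((t + i - 1).choose i : C) * ε ^ i * α' ^ (t + i) +
      (f i - f (i + 1)) := by
    intro i
    have e1 : t + 1 + i - 1 = t + i := by omega
    have e2 : α * α' ^ (t + 1 + i) = α' ^ (t + i) := by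
      have : t + 1 + i = (t + i) + 1 := by omega
      rw [this, pow_succ', ← mul_assoc, ha, one_mul]
    have e3 : ((t + i).choose i : C) = ((t + i - 1).choose i : C) +
        ((t + i - 1).choose (i - 1) : C) * (if i = 0 then 0 else 1) := by
      rcases Nat.eq_zero_or_pos i with rfl | hi
      · simp
      · rw [if_neg hi.ne', mul_one]
        obtain ⟨k, rfl⟩ : ∃ k, i = k + 1 := ⟨i - 1, by omega⟩
        have : t + (k + 1) = (t + k) + 1 := by omega
        rw [this, Nat.choose_succ_succ]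
        simp only [Nat.add_sub_cancel]
        push_cast
        ring
    have e4 : f (i + 1) = -((-1) ^ i * ((t + i).choose i : C) * ε ^ (i + 1) *
        α' ^ (t + 1 + i)) := by
      simp only [f]
      rw [if_neg (Nat.succ_ne_zero i)]
      have h1 : t + (i + 1) - 1 = t + i := by omega
      have h2 : t + (i + 1) = t + 1 + i := by omega
      rw [h1, h2, Nat.add_sub_cancel]
      ring
    rw [e1, e4]
    simp only [f]
    calc (α + ε) * ((-1) ^ i * ((t + i).choose i : C) * ε ^ i * α' ^ (t + 1 + i))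
        = (-1) ^ i * ((t + i).choose i : C) * ε ^ i * (α * α' ^ (t + 1 + i)) +
          (-1) ^ i * ((t + i).choose i : C) * ε ^ (i + 1) * α' ^ (t + 1 + i) := by ring
      _ = _ := by rw [e2, e3]; ring
  rw [Finset.sum_congr rfl fun i _ => key i, Finset.sum_add_distrib, Finset.sum_range_sub']
  have f0 : f 0 = 0 := by simp [f]
  have fK : f K = 0 := by simp [f, hK]
  rw [f0, fK]
  ring

theorem nb_spec (α α' ε : C) (K t : ℕ) (ha : α * α' = 1) (hK : ε ^ K = 0) (hK1 : 1 ≤ K) :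
    (α + ε) ^ t * nb α' ε K t = 1 := by
  induction t with
  | zero => rw [pow_zero, one_mul, nb_zero _ _ _ hK1]
  | succ t ih => rw [pow_succ, mul_assoc, nb_succ α α' ε K t ha hK, ih]

theorem nb_pow (α α' ε : C) (K t : ℕ) (ha : α * α' = 1) (hK : ε ^ K = 0) (hK1 : 1 ≤ K) :
    nb α' ε K t = (nb α' ε K 1) ^ t := by
  have h1 := nb_spec α α' ε K t ha hK hK1
  have h2 := nb_spec α α' ε K 1 ha hK hK1
  rw [pow_one] at h2
  calc nb α' ε K t = ((α + ε) * nb α' ε K 1) ^ t * nb α' ε K t := by rw [h2, one_pow, one_mul]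
    _ = ((α + ε) ^ t * nb α' ε K t) * (nb α' ε K 1) ^ t := by rw [mul_pow]; ring
    _ = _ := by rw [h1, one_mul]

/-- `(α - β + ε) ^ (-1)` -/
theorem nb2 (α α' β ε : C) (J M : ℕ) (ha : α * α' = 1) (hε : ε ^ J = 0) (hβ : β ^ M = 0)
    (hJ : 1 ≤ J) (hM : 1 ≤ M) :
    (α - β + ε) * ∑ j ∈ range J, ∑ l ∈ range M,
      (-1) ^ j * ((j + l).choose j : C) * ε ^ j * β ^ l * α' ^ (1 + j + l) = 1 := by
  have hβ' : (-β) ^ M = 0 := by rw [neg_pow, hβ, mul_zero]
  set w := nb α' (-β) M 1 with hw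
  have h1 : (α - β) * w = 1 := by
    have := nb_spec α α' (-β) M 1 ha hβ' hM
    rwa [pow_one, ← sub_eq_add_neg] at this
  have h2 := nb_spec (α - β) w ε J 1 h1 hε hJ
  rw [pow_one] at h2
  refine Eq.trans ?_ h2
  congr 1
  unfold nb
  refine Finset.sum_congr rfl fun j _ => ?_
  have h3 : w ^ (1 + j) = nb α' (-β) M (1 + j) := (nb_pow α α' (-β) M (1 + j) ha hβ' hM).symm
  have h4 : ((1 + j - 1).choose j : C) = 1 := by
    have : 1 + j - 1 = j := by omega
    rw [this, Nat.choose_self, Nat.cast_one]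
  rw [h3, h4, nb, Finset.mul_sum]
  refine Finset.sum_congr rfl fun l _ => ?_
  have h5 : ((j + l).choose j : C) = ((1 + j + l - 1).choose l : C) := by
    have : 1 + j + l - 1 = j + l := by omega
    rw [this]
    congr 1
    exact Nat.choose_symm_add
  have h6 : (-1 : C) ^ l * (-β) ^ l = β ^ l := by
    rw [← mul_pow]; ring
  rw [h5]
  calc (-1) ^ j * ((1 + j + l - 1).choose l : C) * ε ^ j * β ^ l * α' ^ (1 + j + l)
      = (-1) ^ j * ((1 + j + l - 1).choose l : C) * ε ^ j * ((-1 : C) ^ l * (-β) ^ l) *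
        α' ^ (1 + j + l) := by rw [h6]
    _ = _ := by ring

/-- the two expansions of `P ^ (-m)` -/
theorem two_exp (a a' σ σ' v b e : C) (D p m J M : ℕ) (hm : m ≤ p) (ha : a * a' = 1)
    (hσ : σ * σ' = 1) (hv : v ^ M = 0) (hb : b ^ M = 0) (he : e ^ J = 0) (hJ : 1 ≤ J)
    (hM : 1 ≤ M) (hP : (σ ^ D - v) ^ p = a ^ D - b + e) :
    (σ ^ D - v) ^ (p - m) * ∑ j ∈ range J, ∑ l ∈ range M,
      (-1) ^ j * ((j + l).choose j : C) * e ^ j * b ^ l * a' ^ (D * (1 + j + l)) =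
    ∑ l ∈ range M, ((m + l - 1).choose l : C) * v ^ l * σ' ^ (D * (m + l)) := by
  have h1 := nb2 (a ^ D) (a' ^ D) b e J M (by rw [← mul_pow, ha, one_pow]) he hb hJ hM
  rw [← hP] at h1
  have hv' : (-v) ^ M = 0 := by rw [neg_pow, hv, mul_zero]
  have h2 := nb_spec (σ ^ D) (σ' ^ D) (-v) M m (by rw [← mul_pow, hσ, one_pow]) hv' hM
  rw [← sub_eq_add_neg] at h2
  have h3 : nb (σ' ^ D) (-v) M m =
      ∑ l ∈ range M, ((m + l - 1).choose l : C) * v ^ l * σ' ^ (D * (m + l)) := by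
    unfold nb
    refine Finset.sum_congr rfl fun l _ => ?_
    have h6 : (-1 : C) ^ l * (-v) ^ l = v ^ l := by
      rw [← mul_pow]; ring
    calc (-1) ^ l * ((m + l - 1).choose l : C) * (-v) ^ l * (σ' ^ D) ^ (m + l)
        = ((m + l - 1).choose l : C) * ((-1 : C) ^ l * (-v) ^ l) * (σ' ^ D) ^ (m + l) := by ring
      _ = _ := by rw [h6, ← pow_mul]
  rw [h3] at h2
  set R := ∑ l ∈ range M, ((m + l - 1).choose l : C) * v ^ l * σ' ^ (D * (m + l)) with hR
  have h4 : ∑ j ∈ range J, ∑ l ∈ range M,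
      (-1) ^ j * ((j + l).choose j : C) * e ^ j * b ^ l * (a' ^ D) ^ (1 + j + l) =
      ∑ j ∈ range J, ∑ l ∈ range M,
      (-1) ^ j * ((j + l).choose j : C) * e ^ j * b ^ l * a' ^ (D * (1 + j + l)) := by
    refine Finset.sum_congr rfl fun j _ => Finset.sum_congr rfl fun l _ => ?_
    rw [← pow_mul]
  rw [h4] at h1
  set S := ∑ j ∈ range J, ∑ l ∈ range M,
      (-1) ^ j * ((j + l).choose j : C) * e ^ j * b ^ l * a' ^ (D * (1 + j + l)) with hS
  have h5 : (σ ^ D - v) ^ p = (σ ^ D - v) ^ m * (σ ^ D - v) ^ (p - m) := by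
    rw [← pow_add, Nat.add_sub_cancel' hm]
  rw [h5] at h1
  calc (σ ^ D - v) ^ (p - m) * S = (σ ^ D - v) ^ (p - m) * S * ((σ ^ D - v) ^ m * R) := by
        rw [h2, mul_one]
    _ = ((σ ^ D - v) ^ m * (σ ^ D - v) ^ (p - m) * S) * R := by ring
    _ = R := by rw [h1, one_mul]

/-- negative powers of `σ` -/
theorem sig_exp (a a' σ σ' e : C) (p k t J : ℕ) (ha : a * a' = 1) (hσ : σ * σ' = 1)
    (he : e ^ J = 0) (hJ : 1 ≤ J) (hS : σ ^ p = a + e) (ht : k ≤ p * t) :
    σ' ^ k = σ ^ (p * t - k) * ∑ i ∈ range J,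
      (-1) ^ i * ((t + i - 1).choose i : C) * e ^ i * a' ^ (t + i) := by
  have h1 := nb_spec a a' e J t ha he hJ
  rw [← hS, ← pow_mul] at h1
  have h2 : σ ^ (p * t) = σ ^ (p * t - k) * σ ^ k := by
    rw [← pow_add, Nat.sub_add_cancel ht]
  rw [h2] at h1
  calc σ' ^ k = σ' ^ k * (σ ^ (p * t - k) * σ ^ k * nb a' e J t) := by rw [h1, mul_one]
    _ = (σ * σ') ^ k * (σ ^ (p * t - k) * nb a' e J t) := by rw [mul_pow]; ring
    _ = _ := by rw [hσ, one_pow, one_mul]; rfl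

end

end Pool.CUBE.JF
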