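import Mathlib

/-!
`z_0 + ⋯ + z_n` is a nonzerodivisor, and so is `z_0 ^ p + ⋯ + z_n ^ p` when `p` is nilpotent.
-/

set_option autoImplicit false

open Finset MvPolynomial

namespace Pool.CUBE.JF

section
variable {n : ℕ} {A : Type} [CommRing A]

/-- `z_0 + ⋯ + z_n` -/
noncomputable def Sg (n : ℕ) (A : Type) [CommRing A] : MvPolynomial (Fin (n + 1)) A := ∑ i, X i

/-- the change of variables `z_0 ↦ z_0 + c (z_1 + ⋯ + z_n)` -/
noncomputable def chg (c : A) : MvPolynomial (Fin (n + 1)) A →ₐ[A] MvPolynomial (Fin (n + 1)) A :=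
  aeval (Fin.cases (X 0 + C c * ∑ i : Fin n, X i.succ) fun i => X i.succ)

theorem chg_zero (c : A) : chg c (X 0 : MvPolynomial (Fin (n + 1)) A) =
    X 0 + C c * ∑ i : Fin n, X i.succ := by
  rw [chg, aeval_X]; rfl

theorem chg_succ (c : A) (i : Fin n) : chg c (X i.succ : MvPolynomial (Fin (n + 1)) A) =
    X i.succ := by
  rw [chg, aeval_X]; rfl

theorem chg_Sg : chg (-1) (Sg n A) = X 0 := by
  rw [Sg, Fin.sum_univ_succ, map_add, chg_zero, map_sum, Finset.sum_congr rfl fun i _ =>
    chg_succ (-1) i]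
  rw [map_neg, map_one]
  ring

theorem chg_chg (h : MvPolynomial (Fin (n + 1)) A) : chg 1 (chg (-1) h) = h := by
  have : ((chg 1).comp (chg (-1)) : MvPolynomial (Fin (n + 1)) A →ₐ[A]
      MvPolynomial (Fin (n + 1)) A) = AlgHom.id A _ := by
    ext i
    refine Fin.cases ?_ (fun j => ?_) i
    · rw [AlgHom.comp_apply, chg_zero, map_add, chg_zero, map_mul, map_sum,
        Finset.sum_congr rfl fun i _ => chg_succ (1 : A) i]
      simp
    · rw [AlgHom.comp_apply, chg_succ, chg_succ]
      rfl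
  exact congrArg (fun f : MvPolynomial (Fin (n + 1)) A →ₐ[A] MvPolynomial (Fin (n + 1)) A => f h)
    this

theorem Sg_cancel (h : MvPolynomial (Fin (n + 1)) A) (hh : Sg n A * h = 0) : h = 0 := by
  have h1 := congrArg (chg (-1)) hh
  rw [map_mul, chg_Sg, map_zero] at h1
  have h2 : chg (-1) h = 0 := by
    ext m
    have := congrArg (coeff (m + Finsupp.single 0 1)) h1
    rw [mul_comm, coeff_mul_X, coeff_zero] at this
    rw [this, coeff_zero]
  rw [← chg_chg h, h2, map_zero]

theorem Sg_pow_cancel (k : ℕ) (h : MvPolynomial (Fin (n + 1)) A) (hh : Sg n A ^ k * h = 0) :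
    h = 0 := by
  induction k with
  | zero => rwa [pow_zero, one_mul] at hh
  | succ k ih =>
    rw [pow_succ', mul_assoc] at hh
    exact ih (Sg_cancel _ hh)

/-- `x = Sg ^ p - y` with `y` nilpotent is a nonzerodivisor -/
theorem nzd_of_nilp (p K : ℕ) (x y : MvPolynomial (Fin (n + 1)) A) (hx : Sg n A ^ p = x + y)
    (hy : y ^ K = 0) : x ∈ nonZeroDivisors (MvPolynomial (Fin (n + 1)) A) := by
  rw [mem_nonZeroDivisors_iff_right]
  intro h hh
  have h1 : Sg n A ^ p * h = y * h := by rw [hx, add_mul, mul_comm x h, hh, zero_add]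
  have h2 : ∀ k, Sg n A ^ (p * k) * h = y ^ k * h := by
    intro k
    induction k with
    | zero => simp
    | succ k ih =>
      have : Sg n A ^ (p * (k + 1)) * h = Sg n A ^ (p * k) * (Sg n A ^ p * h) := by
        rw [mul_add, mul_one, pow_add]; ring
      rw [this, h1]
      calc Sg n A ^ (p * k) * (y * h) = y * (Sg n A ^ (p * k) * h) := by ring
        _ = y ^ (k + 1) * h := by rw [ih, pow_succ]; ring
  have h3 := h2 K
  rw [hy, zero_mul] at h3
  exact Sg_pow_cancel _ _ h3

end

end Pool.CUBE.JF
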